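import Mathlib

/-!
# Two-jets of real functions of one variable: `(value, first derivative, second derivative)`
-/

open Filter
open scoped Topology

namespace Pool.Agent.Helper20.HP

/-- A 2-jet `(f 0, f' 0, f'' 0)`. -/
@[ext] structure J2 where
  a : ℝ
  b : ℝ
  c : ℝ

namespace J2

instance : Zero J2 := ⟨⟨0, 0, 0⟩⟩
instance : One J2 := ⟨⟨1, 0, 0⟩⟩
instance : Add J2 := ⟨fun u v => ⟨u.a + v.a, u.b + v.b, u.c + v.c⟩⟩
instance : Neg J2 := ⟨fun u => ⟨-u.a, -u.b, -u.c⟩⟩
instance : Sub J2 := ⟨fun u v => ⟨u.a - v.a, u.b - v.b, u.c - v.c⟩⟩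
instance : Mul J2 := ⟨fun u v => ⟨u.a * v.a, u.a * v.b + u.b * v.a, u.a * v.c + 2 * (u.b * v.b) + u.c * v.a⟩⟩
instance : SMul ℝ J2 := ⟨fun r u => ⟨r * u.a, r * u.b, r * u.c⟩⟩
instance : NatCast J2 := ⟨fun n => ⟨n, 0, 0⟩⟩
instance : IntCast J2 := ⟨fun n => ⟨n, 0, 0⟩⟩

@[simp] lemma zero_a : (0 : J2).a = 0 := rfl
@[simp] lemma zero_b : (0 : J2).b = 0 := rfl
@[simp] lemma zero_c : (0 : J2).c = 0 := rfl
@[simp] lemma one_a : (1 : J2).a = 1 := rfl
@[simp] lemma one_b : (1 : J2).b = 0 := rfl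
@[simp] lemma one_c : (1 : J2).c = 0 := rfl
@[simp] lemma add_a (u v : J2) : (u + v).a = u.a + v.a := rfl
@[simp] lemma add_b (u v : J2) : (u + v).b = u.b + v.b := rfl
@[simp] lemma add_c (u v : J2) : (u + v).c = u.c + v.c := rfl
@[simp] lemma neg_a (u : J2) : (-u).a = -u.a := rfl
@[simp] lemma neg_b (u : J2) : (-u).b = -u.b := rfl
@[simp] lemma neg_c (u : J2) : (-u).c = -u.c := rfl
@[simp] lemma sub_a (u v : J2) : (u - v).a = u.a - v.a := rfl
@[simp] lemma sub_b (u v : J2) : (u - v).b = u.b - v.b := rfl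
@[simp] lemma sub_c (u v : J2) : (u - v).c = u.c - v.c := rfl
@[simp] lemma mul_a (u v : J2) : (u * v).a = u.a * v.a := rfl
@[simp] lemma mul_b (u v : J2) : (u * v).b = u.a * v.b + u.b * v.a := rfl
@[simp] lemma mul_c (u v : J2) : (u * v).c = u.a * v.c + 2 * (u.b * v.b) + u.c * v.a := rfl
@[simp] lemma smul_a (r : ℝ) (u : J2) : (r • u).a = r * u.a := rfl
@[simp] lemma smul_b (r : ℝ) (u : J2) : (r • u).b = r * u.b := rfl
@[simp] lemma smul_c (r : ℝ) (u : J2) : (r • u).c = r * u.c := rfl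

@[simp] lemma natCast_a (n : ℕ) : (n : J2).a = n := rfl
@[simp] lemma natCast_b (n : ℕ) : (n : J2).b = 0 := rfl
@[simp] lemma natCast_c (n : ℕ) : (n : J2).c = 0 := rfl
@[simp] lemma intCast_a (n : ℤ) : (n : J2).a = n := rfl
@[simp] lemma intCast_b (n : ℤ) : (n : J2).b = 0 := rfl
@[simp] lemma intCast_c (n : ℤ) : (n : J2).c = 0 := rfl

instance : CommRing J2 where
  add_assoc u v w := by ext <;> simp [add_assoc]
  zero_add u := by ext <;> simp
  add_zero u := by ext <;> simp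
  add_comm u v := by ext <;> simp [add_comm]
  left_distrib u v w := by ext <;> simp <;> ring
  right_distrib u v w := by ext <;> simp <;> ring
  zero_mul u := by ext <;> simp
  mul_zero u := by ext <;> simp
  mul_assoc u v w := by ext <;> simp <;> ring
  one_mul u := by ext <;> simp
  mul_one u := by ext <;> simp
  neg_add_cancel u := by ext <;> simp
  mul_comm u v := by ext <;> simp <;> ring
  sub_eq_add_neg u v := by ext <;> simp [sub_eq_add_neg]
  natCast_zero := by ext <;> simp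
  natCast_succ n := by ext <;> simp
  intCast_ofNat n := by ext <;> simp
  intCast_negSucc n := by ext <;> simp
  nsmul := nsmulRec
  zsmul := zsmulRec

/-- constants. -/
def C : ℝ →+* J2 where
  toFun r := ⟨r, 0, 0⟩
  map_one' := rfl
  map_mul' r s := by ext <;> simp
  map_zero' := rfl
  map_add' r s := by ext <;> simp

@[simp] lemma C_a (r : ℝ) : (C r).a = r := rfl
@[simp] lemma C_b (r : ℝ) : (C r).b = 0 := rfl
@[simp] lemma C_c (r : ℝ) : (C r).c = 0 := rfl

instance : Algebra ℝ J2 where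
  algebraMap := C
  commutes' r u := by ext <;> simp <;> ring
  smul_def' r u := by ext <;> simp

end J2

/-- `f` has the 2-jet `j` at `0`. -/
def HasJet (f : ℝ → ℝ) (j : J2) : Prop :=
  f 0 = j.a ∧ ∃ f' : ℝ → ℝ, (∀ᶠ t in 𝓝 (0 : ℝ), HasDerivAt f (f' t) t) ∧ f' 0 = j.b ∧ HasDerivAt f' j.c 0

namespace HasJet

lemma const (r : ℝ) : HasJet (fun _ => r) (J2.C r) :=
  ⟨rfl, fun _ => 0, Eventually.of_forall fun t => hasDerivAt_const t r, rfl, hasDerivAt_const 0 0⟩

lemma add {f g : ℝ → ℝ} {j k : J2} (hf : HasJet f j) (hg : HasJet g k) :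
    HasJet (fun t => f t + g t) (j + k) := by
  obtain ⟨h0, f', h1, h2, h3⟩ := hf
  obtain ⟨g0, g', g1, g2, g3⟩ := hg
  refine ⟨by simp [h0, g0], fun t => f' t + g' t, ?_, by simp [h2, g2], h3.add g3⟩
  filter_upwards [h1, g1] with t a b using a.add b

lemma neg {f : ℝ → ℝ} {j : J2} (hf : HasJet f j) : HasJet (fun t => - f t) (-j) := by
  obtain ⟨h0, f', h1, h2, h3⟩ := hf
  refine ⟨by simp [h0], fun t => - f' t, ?_, by simp [h2], h3.neg⟩
  filter_upwards [h1] with t a using a.neg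

lemma sub {f g : ℝ → ℝ} {j k : J2} (hf : HasJet f j) (hg : HasJet g k) :
    HasJet (fun t => f t - g t) (j - k) := by
  have := hf.add hg.neg
  simpa [sub_eq_add_neg] using this

lemma mul {f g : ℝ → ℝ} {j k : J2} (hf : HasJet f j) (hg : HasJet g k) :
    HasJet (fun t => f t * g t) (j * k) := by
  obtain ⟨h0, f', h1, h2, h3⟩ := hf
  obtain ⟨g0, g', g1, g2, g3⟩ := hg
  refine ⟨by simp [h0, g0], fun t => f' t * g t + f t * g' t, ?_, ?_, ?_⟩
  · filter_upwards [h1, g1] with t a b using a.mul b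
  · simp [h0, g0, h2, g2]; ring
  · have e1 := h3.mul g1.self_of_nhds
    have e2 := h1.self_of_nhds.mul g3
    refine (e1.add e2).congr_deriv ?_
    simp [h0, g0, h2, g2]; ring

lemma smul (r : ℝ) {f : ℝ → ℝ} {j : J2} (hf : HasJet f j) : HasJet (fun t => r * f t) (r • j) := by
  have := (const r).mul hf
  convert this using 1
  ext <;> simp

/-- the curve `a + t b + t²/2 c` -/
lemma quad (a b c : ℝ) : HasJet (fun t => a + t * b + t ^ 2 / 2 * c) ⟨a, b, c⟩ := by
  refine ⟨by simp, fun t => b + t * c, Eventually.of_forall fun t => ?_, by simp, ?_⟩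
  · have h1 := ((hasDerivAt_id t).mul_const b).const_add a
    have h2 := (((hasDerivAt_id t).pow 2).div_const 2).mul_const c
    refine (h1.add h2).congr_deriv ?_
    simp
  · have h1 := ((hasDerivAt_id (0 : ℝ)).mul_const c).const_add b
    simpa using h1

/-- the jet is determined by iterated derivatives. -/
lemma deriv_eq {f : ℝ → ℝ} {j : J2} (hf : HasJet f j) : deriv f 0 = j.b ∧ deriv (deriv f) 0 = j.c := by
  obtain ⟨h0, f', h1, h2, h3⟩ := hf
  refine ⟨by rw [h1.self_of_nhds.deriv, h2], ?_⟩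
  have : deriv f =ᶠ[𝓝 0] f' := h1.mono fun t ht => ht.deriv
  rw [this.deriv_eq, h3.deriv]

end HasJet

end Pool.Agent.Helper20.HP
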