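import Pool.Agent.Helper20.HP.KKDefs
import Pool.Agent.Helper20.HP.Jet

/-!
# The explicit metrics on `S² × S³` and `S² × S²`
-/

open Filter Metric Module Set
open scoped Topology ContDiff RealInnerProductSpace Manifold Quaternion

namespace Pool.Agent.Helper20.HP
open Pool.Agent.Helper20.PC

abbrev E3 := EuclideanSpace ℝ (Fin 3)

/-- shortcut instance (needed for norms on spaces of bilinear forms on `E3 × ℍ[ℝ]`). -/
noncomputable instance instNormedSpaceQuat : NormedSpace ℝ ℍ[ℝ] :=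
  Quaternion.instInnerProductSpaceReal.toNormedSpace

instance instFactE3 : Fact (finrank ℝ E3 = 2 + 1) := ⟨by simp⟩
instance instFactQuat : Fact (finrank ℝ ℍ[ℝ] = 3 + 1) := ⟨by rw [Quaternion.finrank_eq_four]⟩

/-- the quaternion `i`. -/
def qI : ℍ[ℝ] := ⟨0, 1, 0, 0⟩

/-! ### polynomials, over an arbitrary real algebra -/
section generic
variable {R : Type*} [CommRing R] [Algebra ℝ R]

def dotG (x y : Fin 3 → R) : R := x 0 * y 0 + x 1 * y 1 + x 2 * y 2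
def HbG (x y : Fin 3 → R) : R := x 0 * (y 1 + y 2) + (x 1 + x 2) * y 0
def FbG (x y : Fin 3 → R) : R := - (x 0 * y 0) + (x 1 + x 2) * (y 1 + y 2)
/-- bilinear form of `Φ₂`. -/
noncomputable def PhG (x a b : Fin 3 → R) : R :=
  (6 * x 1 * x 2 - 27 * x 0 ^ 2 + 4 * x 1 ^ 2 - 26 * x 0 ^ 2 * x 1 * x 2 + 30 * x 0 ^ 4
      + 8 * x 0 ^ 2 * x 1 ^ 2 - 4 * x 1 ^ 4) * (a 0 * b 0)
    + (1/2 : ℝ) • (x 0 * x 2 * (7 - 22 * x 0 ^ 2) * (a 0 * b 1 + a 1 * b 0))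
    + x 0 ^ 2 * (5 - 6 * x 0 ^ 2) * (a 1 * b 1)
/-- the fibre form `S_x(a,b)`. -/
noncomputable def SbG (κ ε T : ℝ) (x a b : Fin 3 → R) : R :=
  (1/4 : ℝ) • (dotG x a * dotG x b) + (3/2 * ε) • (dotG x a * b 2 + dotG x b * a 2)
    + (ε ^ 2 * T) • (FbG a b + κ • (HbG x a * FbG x b + HbG x b * FbG x a) + κ ^ 2 • PhG x a b)

end generic

/-! ### the data in `ℝ³` -/

def cr (a b : E3) : E3 := !₂[a 1 * b 2 - a 2 * b 1, a 2 * b 0 - a 0 * b 2, a 0 * b 1 - a 1 * b 0]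
def Hb (x y : E3) : ℝ := HbG (fun i => x i) (fun i => y i)
def Hv (x : E3) : E3 := !₂[x 1 + x 2, x 0, x 0]
def e3 : E3 := !₂[0, 0, 1]
noncomputable def Sb (κ ε T : ℝ) (x a b : E3) : ℝ := SbG κ ε T (fun i => x i) (fun i => a i) (fun i => b i)
/-- conformal factor: the metric on the base is `sg⁻² |dx|²`. -/
def sg (κ : ℝ) (x : E3) : ℝ := 1 - κ * Hb x x
noncomputable def rr (ε : ℝ) (x : E3) : ℝ := 1/2 + ε * x 2
/-- the connection form. -/
noncomputable def Av (κ ε : ℝ) (x u : E3) : E3 :=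
  (rr ε x / sg κ x - 1) • cr x u + (2 * κ / sg κ x * ⟪cr x (Hv x), u⟫) • x
/-- the Gauss curvature of the base (on the unit sphere). -/
noncomputable def Kc (κ : ℝ) (x : E3) : ℝ :=
  sg κ x ^ 2 + 6 * κ * sg κ x * Hb x x - 4 * κ ^ 2 * (‖Hv x‖ ^ 2 - Hb x x ^ 2)
/-- the curvature of the connection (on the unit sphere). -/
noncomputable def om (κ ε : ℝ) (x : E3) : E3 :=
  - ((Kc κ x - rr ε x ^ 2) • x + (ε * sg κ x) • (e3 - x 2 • x))

/-! ### two-jets along the geodesic with direction `X` (`x`, `X` orthonormal), `n = x × X` -/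

noncomputable def sgn (κ : ℝ) (x X : E3) : ℝ := -2 * κ * Hb x (cr x X)
noncomputable def jx1 (κ : ℝ) (x X : E3) : E3 := sg κ x • X
noncomputable def jX1 (κ : ℝ) (x X : E3) : E3 := -(sg κ x • x) - sgn κ x X • cr x X
noncomputable def jn1 (κ : ℝ) (x X : E3) : E3 := sgn κ x X • X
noncomputable def js1 (κ : ℝ) (x X : E3) : ℝ := -2 * κ * Hb x (jx1 κ x X)
noncomputable def jsn1 (κ : ℝ) (x X : E3) : ℝ := -2 * κ * (Hb (jx1 κ x X) (cr x X) + Hb x (jn1 κ x X))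
noncomputable def jx2 (κ : ℝ) (x X : E3) : E3 := js1 κ x X • X + sg κ x • jX1 κ x X
/-- value of the connection form on the velocity, and its derivative -/
noncomputable def jw0 (κ ε : ℝ) (x X : E3) : E3 := (rr ε x - sg κ x) • cr x X + sgn κ x X • x
noncomputable def jw1 (κ ε : ℝ) (x X : E3) : E3 :=
  (ε * jx1 κ x X 2 - js1 κ x X) • cr x X + (rr ε x - sg κ x) • jn1 κ x X
    + jsn1 κ x X • x + sgn κ x X • jx1 κ x X
/-- parallel transport -/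
noncomputable def jb1 (κ ε : ℝ) (x X b : E3) : E3 := - cr (jw0 κ ε x X) b
noncomputable def jb2 (κ ε : ℝ) (x X b : E3) : E3 :=
  - cr (jw1 κ ε x X) b - cr (jw0 κ ε x X) (jb1 κ ε x X b)

/-- the jet of `x`, and of a parallel vector `b`, along the geodesic -/
noncomputable def Jx (κ : ℝ) (x X : E3) (i : Fin 3) : J2 := ⟨x i, jx1 κ x X i, jx2 κ x X i⟩
noncomputable def Jb (κ ε : ℝ) (x X b : E3) (i : Fin 3) : J2 := ⟨b i, jb1 κ ε x X b i, jb2 κ ε x X b i⟩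
/-- first and second derivative of `S_x(a,b)`, `a`, `b` parallel, along the geodesic -/
noncomputable def S1 (κ ε T : ℝ) (x X a b : E3) : ℝ :=
  (SbG κ ε T (Jx κ x X) (Jb κ ε x X a) (Jb κ ε x X b)).b
noncomputable def S2 (κ ε T : ℝ) (x X a b : E3) : ℝ :=
  (SbG κ ε T (Jx κ x X) (Jb κ ε x X a) (Jb κ ε x X b)).c
/-- covariant derivative of `om` in the direction `sg X`. -/
noncomputable def dom (κ ε : ℝ) (x X : E3) : E3 :=
  fderiv ℝ (om κ ε) x (jx1 κ x X) + cr (jw0 κ ε x X) (om κ ε x)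

/-! ### continuous multilinear versions -/

/-- the cross product as a continuous bilinear map. -/
noncomputable def crL : E3 →L[ℝ] E3 →L[ℝ] E3 :=
  IsBilinearMap.toContinuousBilinearMap (𝕜 := ℝ) (f := cr)
    ⟨fun a b c => by ext i; fin_cases i <;> simp [cr] <;> ring,
     fun r a b => by ext i; fin_cases i <;> simp [cr] <;> ring,
     fun a b c => by ext i; fin_cases i <;> simp [cr] <;> ring,
     fun r a b => by ext i; fin_cases i <;> simp [cr] <;> ring⟩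

@[simp] lemma crL_apply (a b : E3) : crL a b = cr a b := rfl

/-- `S_x` as a continuous bilinear form. -/
noncomputable def SbL (κ ε T : ℝ) (x : E3) : E3 →L[ℝ] E3 →L[ℝ] ℝ :=
  IsBilinearMap.toContinuousBilinearMap (𝕜 := ℝ) (f := Sb κ ε T x)
    ⟨fun a b c => by simp [Sb, SbG, dotG, HbG, FbG, PhG]; ring,
     fun r a b => by simp [Sb, SbG, dotG, HbG, FbG, PhG]; ring,
     fun a b c => by simp [Sb, SbG, dotG, HbG, FbG, PhG]; ring,
     fun r a b => by simp [Sb, SbG, dotG, HbG, FbG, PhG]; ring⟩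

@[simp] lemma SbL_apply (κ ε T : ℝ) (x a b : E3) : SbL κ ε T x a b = Sb κ ε T x a b := rfl

/-- `A_x` as a continuous linear map. -/
noncomputable def AvL (κ ε : ℝ) (x : E3) : E3 →L[ℝ] E3 :=
  (rr ε x / sg κ x - 1) • crL x + (2 * κ / sg κ x) • (innerSL ℝ (cr x (Hv x))).smulRight x

lemma AvL_apply (κ ε : ℝ) (x u : E3) : AvL κ ε x u = Av κ ε x u := by
  simp [AvL, Av, smul_smul]

/-- the imaginary part of a quaternion -/
noncomputable def vecL : ℍ[ℝ] →L[ℝ] E3 :=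
  LinearMap.toContinuousLinearMap
    { toFun := fun q => !₂[q.imI, q.imJ, q.imK]
      map_add' := fun p q => by ext i; fin_cases i <;> simp
      map_smul' := fun r q => by ext i; fin_cases i <;> simp }

/-- a vector as imaginary quaternion -/
noncomputable def qimL : E3 →L[ℝ] ℍ[ℝ] :=
  LinearMap.toContinuousLinearMap
    { toFun := fun v => ⟨0, v 0, v 1, v 2⟩
      map_add' := fun p q => by ext <;> simp
      map_smul' := fun r q => by ext <;> simp }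

/-- the real part of a quaternion -/
noncomputable def reL : ℍ[ℝ] →L[ℝ] ℝ :=
  LinearMap.toContinuousLinearMap
    { toFun := fun q => q.re
      map_add' := fun p q => by simp
      map_smul' := fun r q => by simp }

lemma vecL_apply (q : ℍ[ℝ]) : vecL q = !₂[q.imI, q.imJ, q.imK] := rfl
lemma qimL_apply (v : E3) : qimL v = ⟨0, v 0, v 1, v 2⟩ := rfl
lemma reL_apply (q : ℍ[ℝ]) : reL q = q.re := rfl

/-! ### the metrics on `S² × S³` and `S² × S²` -/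

/-- the inner product of `ℝ³` as a bilinear form -/
noncomputable def inL : E3 →L[ℝ] E3 →L[ℝ] ℝ := innerSL ℝ

lemma inL_apply (a b : E3) : inL a b = ⟪a, b⟫ := rfl

/-- base metric -/
noncomputable def hhat (κ : ℝ) (x : E3) : E3 →L[ℝ] E3 →L[ℝ] ℝ :=
  ((sg κ x) ^ 2)⁻¹ • inL
/-- fibre form `δ² (|W|² - δ² S_x(W,W))` -/
noncomputable def Mf (κ ε T δ : ℝ) (x : E3) : E3 →L[ℝ] E3 →L[ℝ] ℝ :=
  (δ ^ 2) • inL - (δ ^ 4) • SbL κ ε T x

/-- `W = 2 Im(p q⁻¹) + A_x(u)` -/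
noncomputable def W3 (κ ε : ℝ) (x : E3) (q : ℍ[ℝ]) : E3 × ℍ[ℝ] →L[ℝ] E3 :=
  (2 : ℝ) • (vecL ∘L ((ContinuousLinearMap.mul ℝ ℍ[ℝ]).flip q⁻¹) ∘L ContinuousLinearMap.snd ℝ E3 ℍ[ℝ])
    + AvL κ ε x ∘L ContinuousLinearMap.fst ℝ E3 ℍ[ℝ]

/-- the metric on `S² × S³`. -/
noncomputable def g3 (κ ε T δ : ℝ) (p : sphere (0 : E3) 1 × sphere (0 : ℍ[ℝ]) 1) :
    (E3 × ℍ[ℝ]) →L[ℝ] (E3 × ℍ[ℝ]) →L[ℝ] ℝ :=
  (hhat κ p.1).bilinearComp (ContinuousLinearMap.fst ℝ E3 ℍ[ℝ]) (ContinuousLinearMap.fst ℝ E3 ℍ[ℝ])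
    + (Mf κ ε T δ p.1).bilinearComp (W3 κ ε p.1 p.2) (W3 κ ε p.1 p.2)

/-- `W = y × p + A_x(u)` -/
noncomputable def W2 (κ ε : ℝ) (x y : E3) : E3 × E3 →L[ℝ] E3 :=
  crL y ∘L ContinuousLinearMap.snd ℝ E3 E3 + AvL κ ε x ∘L ContinuousLinearMap.fst ℝ E3 E3

/-- the metric on `S² × S²`. -/
noncomputable def g2 (κ ε T δ : ℝ) (p : sphere (0 : E3) 1 × sphere (0 : E3) 1) :
    (E3 × E3) →L[ℝ] (E3 × E3) →L[ℝ] ℝ :=
  (hhat κ p.1).bilinearComp (ContinuousLinearMap.fst ℝ E3 E3) (ContinuousLinearMap.fst ℝ E3 E3)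
    + (Mf κ ε T δ p.1).bilinearComp (W2 κ ε p.1 p.2) (W2 κ ε p.1 p.2)
    - (Mf κ ε T δ p.1 p.2 p.2)⁻¹ • (Mf κ ε T δ p.1 p.2 ∘L W2 κ ε p.1 p.2).smulRight
        (Mf κ ε T δ p.1 p.2 ∘L W2 κ ε p.1 p.2)

/-! ### extension to the complement of the origin -/

noncomputable def nn (x : E3) : E3 := ‖x‖⁻¹ • x
noncomputable def hE (κ : ℝ) (x : E3) : E3 →L[ℝ] E3 →L[ℝ] ℝ :=
  (dl x).smulRight (dl x) + (hhat κ (nn x)).bilinearComp (dn x) (dn x)
noncomputable def NE (κ ε T δ : ℝ) (x : E3) : ℍ[ℝ] →L[ℝ] ℍ[ℝ] →L[ℝ] ℝ :=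
  reL.smulRight reL + (4 : ℝ) • (Mf κ ε T δ (nn x)).bilinearComp vecL vecL
noncomputable def AE (κ ε : ℝ) (x : E3) : E3 →L[ℝ] ℍ[ℝ] :=
  (1/2 : ℝ) • (qimL ∘L AvL κ ε (nn x) ∘L dn x)

end Pool.Agent.Helper20.HP
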