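import Pool.Agent.Helper20.HP.Data

/-!
# Auxiliary definitions for the proof of positive curvature
-/

open Filter Metric Module Set
open scoped Topology ContDiff RealInnerProductSpace Manifold Quaternion

namespace Pool.Agent.Helper20.HP
open Pool.Agent.Helper20.PC

/-- `M̂ = ⟨a,b⟩ - δ² S_x(a,b)`. -/
noncomputable def Mh (κ ε T δ : ℝ) (x a b : E3) : ℝ := ⟪a, b⟫ - δ ^ 2 * Sb κ ε T x a b

/-- the principal vectors `ca σ X + (sa/δ) U`. -/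
noncomputable def pv (κ ε δ : ℝ) (x X : E3) (ca sa : ℝ) (U : E3) : E3 × ℍ[ℝ] :=
  (ca • (sg κ x • X), (sa / (2 * δ)) • qimL U - AE κ ε x (ca • (sg κ x • X)))

/-- mixed second derivative by polarisation. -/
noncomputable def S11 (κ ε T : ℝ) (x X a b : E3) : ℝ :=
  S2 κ ε T x ((√2)⁻¹ • (X + cr x X)) a b - (1/2) * S2 κ ε T x X a b - (1/2) * S2 κ ε T x (cr x X) a b

/-- the explicit part of the formula. -/
noncomputable def F3 (κ ε T δ : ℝ) (x X U V : E3) (ca sa cb sb : ℝ) : ℝ :=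
  let n := cr x X; let w := cr U V; let xx := ca * cb; let z := sa * sb; let m1 := ca * sb; let m2 := sa * cb
  let M := Mh κ ε T δ x; let o := om κ ε x
  let H1 := (1/2) * δ ^ 2 * z * S1 κ ε T x X U V - (1/2) * δ * m2 * M U o
  let H2 := (1/2) * δ ^ 2 * z * S1 κ ε T x n U V + (1/2) * δ * m1 * M V o
  let Hu1 := (1/2) * δ ^ 2 * sa ^ 2 * S1 κ ε T x X U U
  let Hu2 := (1/2) * δ ^ 2 * sa ^ 2 * S1 κ ε T x n U U + δ * sa * ca * M U o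
  let Hv1 := (1/2) * δ ^ 2 * sb ^ 2 * S1 κ ε T x X V V - δ * sb * cb * M V o
  let Hv2 := (1/2) * δ ^ 2 * sb ^ 2 * S1 κ ε T x n V V
  Kc κ x * xx ^ 2 - (3/4) * δ ^ 2 * xx ^ 2 * M o o
    + (δ ^ 2)⁻¹ * z ^ 2 * (- (3/4) * M w w - (1/2) * M (cr U w) V - (1/2) * M (cr V (cr V U)) U)
    - (3/2) * xx * z * M w o - δ ^ 2 * xx * z * S11 κ ε T x X U V
    + δ * xx * (- m1 * M (dom κ ε x X) V + m2 * M (dom κ ε x n) U)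
    + δ ^ 2 * ((1/2) * m1 ^ 2 * S2 κ ε T x X V V + (1/2) * m2 ^ 2 * S2 κ ε T x n U U)
    + (3/2) * δ * z * (m1 * S1 κ ε T x X w V - m2 * S1 κ ε T x n w U)
    + (3/2) * δ ^ 3 * xx * (m1 * S1 κ ε T x X o V - m2 * S1 κ ε T x n o U)
    + H1 ^ 2 + H2 ^ 2 - Hu1 * Hv1 - Hu2 * Hv2

/-- error terms. -/
noncomputable def Er (δ xx z m1 m2 : ℝ) : ℝ :=
  δ ^ 2 * xx ^ 2 + z ^ 2 + |xx * z| + δ * |z| * (|m1| + |m2|) + δ ^ 3 * |xx| * (|m1| + |m2|)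
    + δ ^ 4 * (m1 ^ 2 + m2 ^ 2)

/-- main terms. -/
noncomputable def Mt (κ ε T δ : ℝ) (x X U V : E3) (xx z m1 m2 : ℝ) : ℝ :=
  Kc κ x * xx ^ 2 + (1/4) * (δ ^ 2)⁻¹ * z ^ 2
    + δ * xx * (- m1 * ⟪V, dom κ ε x X⟫ + m2 * ⟪U, dom κ ε x (cr x X)⟫)
    + δ ^ 2 * (m1 ^ 2 * ((1/2) * S2 κ ε T x X V V + (1/4) * ⟪V, om κ ε x⟫ ^ 2)
      + m2 ^ 2 * ((1/2) * S2 κ ε T x (cr x X) U U + (1/4) * ⟪U, om κ ε x⟫ ^ 2))

/-- uniform bounds. -/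
structure Bd (κ ε T B : ℝ) (x X : E3) : Prop where
  one : 1 ≤ B
  K : |Kc κ x| ≤ B
  om : ‖om κ ε x‖ ≤ B
  dom : ‖dom κ ε x X‖ ≤ B
  S : ∀ a b, |Sb κ ε T x a b| ≤ B * ‖a‖ * ‖b‖
  S1 : ∀ a b, |S1 κ ε T x X a b| ≤ B * ‖a‖ * ‖b‖
  S2 : ∀ a b, |S2 κ ε T x X a b| ≤ B * ‖a‖ * ‖b‖

/-- the limit form -/
noncomputable def Pf (κ ε T : ℝ) (x X b : E3) : ℝ :=
  Kc κ x * (2 * S2 κ ε T x X b b + ⟪b, om κ ε x⟫ ^ 2) - ⟪b, dom κ ε x X⟫ ^ 2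

noncomputable def jX2 (κ : ℝ) (x X : E3) : E3 :=
  -(js1 κ x X • x) - sg κ x • jx1 κ x X - jsn1 κ x X • cr x X - sgn κ x X • jn1 κ x X
noncomputable def jn2 (κ : ℝ) (x X : E3) : E3 := jsn1 κ x X • X + sgn κ x X • jX1 κ x X
noncomputable def JX (κ : ℝ) (x X : E3) (i : Fin 3) : J2 := ⟨X i, jX1 κ x X i, jX2 κ x X i⟩
noncomputable def Jn (κ : ℝ) (x X : E3) (i : Fin 3) : J2 := ⟨cr x X i, jn1 κ x X i, jn2 κ x X i⟩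
/-- jets of `sg`, `r`, `K` along the geodesic -/
noncomputable def Jsg (κ : ℝ) (x X : E3) : J2 := 1 - κ • HbG (Jx κ x X) (Jx κ x X)
noncomputable def Jr (κ ε : ℝ) (x X : E3) : J2 := J2.C (1/2) + ε • Jx κ x X 2
noncomputable def JK (κ : ℝ) (x X : E3) : J2 :=
  Jsg κ x X ^ 2 + (6 * κ) • (Jsg κ x X * HbG (Jx κ x X) (Jx κ x X))
    - (4 * κ ^ 2) • (HbG (Jx κ x X) (JX κ x X) ^ 2 + HbG (Jx κ x X) (Jn κ x X) ^ 2)
/-- jets of the coefficients `c`, `z` of a parallel vector `c x + z X + y n` -/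
noncomputable def Jc (κ ε : ℝ) (x X : E3) (c z : ℝ) : J2 :=
  ⟨c, rr ε x * z, ε * jx1 κ x X 2 * z - rr ε x ^ 2 * c⟩
noncomputable def Jz (κ ε : ℝ) (x X : E3) (c z : ℝ) : J2 :=
  ⟨z, - rr ε x * c, - (ε * jx1 κ x X 2 * c) - rr ε x ^ 2 * z⟩
/-- the quadratic form `Q(x; b)` -/
noncomputable def QG (κ : ℝ) {R : Type*} [CommRing R] [Algebra ℝ R] (x b : Fin 3 → R) : R :=
  FbG b b + (2 * κ) • (HbG x b * FbG x b) + κ ^ 2 • PhG x b b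

/-- the limit form in the frame, `b = c x + z X + (y/ε) n`; polynomial in `ε`. -/
noncomputable def Pe (κ ε T : ℝ) (x X : E3) (c z y : ℝ) : ℝ :=
  let jc := Jc κ ε x X c z; let jz := Jz κ ε x X c z; let jy := J2.C y
  let q := (1/4 : ℝ) • jc ^ 2 + (3 : ℝ) • (jc * (ε • (jc * Jx κ x X 2) + ε • (jz * JX κ x X 2) + jy * Jn κ x X 2))
    + T • QG κ (Jx κ x X) (fun i => ε • (jc * Jx κ x X i) + ε • (jz * JX κ x X i) + jy * Jn κ x X i)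
  let ψ := (JK κ x X - Jr κ ε x X ^ 2) * jc + Jsg κ x X * (ε • (jz * JX κ x X 2) + jy * Jn κ x X 2)
  (JK κ x X).a * (2 * q.c + ψ.a ^ 2) - ψ.b ^ 2

/-- the projection `(x,q) ↦ (x, q i q̄/|q|)`. -/
noncomputable def prj (z : E3 × ℍ[ℝ]) : E3 × E3 := (z.1, ‖z.2‖⁻¹ • vecL (z.2 * qI * star z.2))

/-- the connection form of the circle action. -/
noncomputable def bet (κ ε T δ : ℝ) (z : E3 × ℍ[ℝ]) : E3 × ℍ[ℝ] →L[ℝ] ℝ :=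
  (√(Mf κ ε T δ (nn z.1) (nn (prj z).2) (nn (prj z).2)))⁻¹ •
    (Mf κ ε T δ (nn z.1) (nn (prj z).2) ∘L
      ((2 : ℝ) • (vecL ∘L ((ContinuousLinearMap.mul ℝ ℍ[ℝ]).flip z.2⁻¹) ∘L ContinuousLinearMap.snd ℝ E3 ℍ[ℝ])
        + AvL κ ε (nn z.1) ∘L dn z.1 ∘L ContinuousLinearMap.fst ℝ E3 ℍ[ℝ]))

end Pool.Agent.Helper20.HP
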