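import Pool.Agent.Helper20.HP.Man

open Filter Metric Module Set
open scoped Topology ContDiff RealInnerProductSpace Manifold

set_option maxSynthPendingDepth 3

namespace Pool.Agent.Helper20.HP
open Pool.Agent.Helper20.PC

section
variable {E₁ E₂ : Type} [NormedAddCommGroup E₁] [InnerProductSpace ℝ E₁] [FiniteDimensional ℝ E₁]
  [NormedAddCommGroup E₂] [InnerProductSpace ℝ E₂] [FiniteDimensional ℝ E₂]
  {k l : ℕ} [Fact (finrank ℝ E₁ = k + 1)] [Fact (finrank ℝ E₂ = l + 1)]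

/-- the differential of the inclusion of the product of two unit spheres. -/
noncomputable def dinc (p : sphere (0 : E₁) 1 × sphere (0 : E₂) 1) :
    TangentSpace ((𝓡 k).prod (𝓡 l)) p →L[ℝ] E₁ × E₂ :=
  mfderiv ((𝓡 k).prod (𝓡 l)) 𝓘(ℝ, E₁ × E₂)
    (fun q : sphere (0 : E₁) 1 × sphere (0 : E₂) 1 => ((q.1 : E₁), (q.2 : E₂))) p

end

end Pool.Agent.Helper20.HP
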