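import Pool.Agent.Helper20.PC.Curv

/-!
# Kaluza-Klein metrics

`B` is a normed space (the base), `𝔸` a normed division ring (the fibre is `𝔸 ∖ 0`); a
Kaluza-Klein metric on `B × (𝔸 ∖ 0)` is `h + N_x(dq q⁻¹ + A, dq q⁻¹ + A)`.
-/

open Filter Metric Module Set
open scoped Topology ContDiff RealInnerProductSpace Manifold

namespace Pool.Agent.Helper20.HP
open Pool.Agent.Helper20.PC

section
variable {B W : Type*} [NormedAddCommGroup B] [NormedSpace ℝ B] [NormedAddCommGroup W] [NormedSpace ℝ W]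

/-- first derivative of a family of bilinear forms on `W` parametrised by `B`. -/
noncomputable def dN (N : B → W →L[ℝ] W →L[ℝ] ℝ) (x ζ : B) (a b : W) : ℝ :=
  fderiv ℝ (fun x' => N x' a b) x ζ

/-- second derivative of a family of bilinear forms on `W` parametrised by `B`. -/
noncomputable def ddN (N : B → W →L[ℝ] W →L[ℝ] ℝ) (x ξ ζ : B) (a b : W) : ℝ :=
  fderiv ℝ (fun x' => dN N x' ζ a b) x ξ

/-- A `C²` family of positive definite symmetric forms near `x`. -/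
structure FormAt (N : B → W →L[ℝ] W →L[ℝ] ℝ) (x : B) : Prop where
  smooth : ContDiffAt ℝ 2 N x
  symm : ∀ᶠ x' in 𝓝 x, ∀ a b, N x' a b = N x' b a
  pos : ∀ᶠ x' in 𝓝 x, ∀ a, a ≠ 0 → 0 < N x' a a

/-- The metric `h + N(Λ,Λ)` on `B × W`. -/
noncomputable def normalMetric (h : B → B →L[ℝ] B →L[ℝ] ℝ) (N : B → W →L[ℝ] W →L[ℝ] ℝ)
    (Λ : B × W → B × W →L[ℝ] W) (z : B × W) : (B × W) →L[ℝ] (B × W) →L[ℝ] ℝ :=
  (h z.1).bilinearComp (ContinuousLinearMap.fst ℝ B W) (ContinuousLinearMap.fst ℝ B W)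
    + (N z.1).bilinearComp (Λ z) (Λ z)

/-- `dΛ(u,v)` when `DΛ` is antisymmetric at `z`. -/
noncomputable def cc (Λ : B × W → B × W →L[ℝ] W) (z u v : B × W) : W := (2 : ℝ) • fderiv ℝ Λ z u v

/-- covariant derivative of `dΛ`. -/
noncomputable def ee (h : B → B →L[ℝ] B →L[ℝ] ℝ) (Λ : B × W → B × W →L[ℝ] W) (z u v : B × W) : W :=
  fderiv ℝ (fun z' => fderiv ℝ Λ z' u v) z u - fderiv ℝ (fun z' => fderiv ℝ Λ z' v u) z u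
    - cc Λ z (Gam h z.1 u.1 u.1, 0) v - cc Λ z u (Gam h z.1 u.1 v.1, 0)

/-- covariant second derivative of `N`. -/
noncomputable def hessN (h : B → B →L[ℝ] B →L[ℝ] ℝ) (N : B → W →L[ℝ] W →L[ℝ] ℝ) (x ζ ζ' : B) (a b : W) : ℝ :=
  ddN N x ζ ζ' a b - dN N x (Gam h x ζ ζ') a b

/-- `t` is the horizontal part of the difference tensor. -/
def IsH (h : B → B →L[ℝ] B →L[ℝ] ℝ) (N : B → W →L[ℝ] W →L[ℝ] ℝ) (Λ : B × W → B × W →L[ℝ] W)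
    (z u v : B × W) (t : B) : Prop :=
  ∀ ξ : B, h z.1 t ξ = - (1/2) * dN N z.1 ξ u.2 v.2 + (1/2) * N z.1 v.2 (cc Λ z u (ξ, 0))
    + (1/2) * N z.1 u.2 (cc Λ z v (ξ, 0))

/-- `t` is the vertical part of the difference tensor. -/
def IsV (N : B → W →L[ℝ] W →L[ℝ] ℝ) (Λ : B × W → B × W →L[ℝ] W)
    (z u v : B × W) (t : W) : Prop :=
  ∀ ξ : W, N z.1 t ξ = (1/2) * dN N z.1 u.1 v.2 ξ + (1/2) * dN N z.1 v.1 u.2 ξ
    + (1/2) * N z.1 v.2 (cc Λ z u (0, ξ)) + (1/2) * N z.1 u.2 (cc Λ z v (0, ξ))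

end

section
variable {B 𝔸 : Type*} [NormedAddCommGroup B] [NormedSpace ℝ B] [NormedDivisionRing 𝔸] [NormedAlgebra ℝ 𝔸]

/-- the one-form `dq q⁻¹ + A`. -/
noncomputable def lam (A : B → B →L[ℝ] 𝔸) (z : B × 𝔸) : B × 𝔸 →L[ℝ] 𝔸 :=
  ((ContinuousLinearMap.mul ℝ 𝔸).flip z.2⁻¹) ∘L ContinuousLinearMap.snd ℝ B 𝔸
    + A z.1 ∘L ContinuousLinearMap.fst ℝ B 𝔸

/-- the Kaluza-Klein metric `h + N(dq q⁻¹ + A, dq q⁻¹ + A)`. -/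
noncomputable def KK (h : B → B →L[ℝ] B →L[ℝ] ℝ) (N : B → 𝔸 →L[ℝ] 𝔸 →L[ℝ] ℝ) (A : B → B →L[ℝ] 𝔸)
    (z : B × 𝔸) : (B × 𝔸) →L[ℝ] (B × 𝔸) →L[ℝ] ℝ :=
  (h z.1).bilinearComp (ContinuousLinearMap.fst ℝ B 𝔸) (ContinuousLinearMap.fst ℝ B 𝔸)
    + (N z.1).bilinearComp (lam A z) (lam A z)

/-- the commutator. -/
def br (a b : 𝔸) : 𝔸 := a * b - b * a

/-- the curvature of `A`. -/
noncomputable def Om (A : B → B →L[ℝ] 𝔸) (x ζ ζ' : B) : 𝔸 :=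
  fderiv ℝ A x ζ ζ' - fderiv ℝ A x ζ' ζ + br (A x ζ) (A x ζ')

/-- the covariant derivative `(∇_ξ Ω)(ζ,ζ')`. -/
noncomputable def DOm (h : B → B →L[ℝ] B →L[ℝ] ℝ) (A : B → B →L[ℝ] 𝔸) (x ξ ζ ζ' : B) : 𝔸 :=
  fderiv ℝ (fun x' => Om A x' ζ ζ') x ξ + br (A x ξ) (Om A x ζ ζ')
    - Om A x (Gam h x ξ ζ) ζ' - Om A x ζ (Gam h x ξ ζ')

/-- covariant first derivative of `N`. -/
noncomputable def cN1 (N : B → 𝔸 →L[ℝ] 𝔸 →L[ℝ] ℝ) (A : B → B →L[ℝ] 𝔸) (x ζ : B) (a b : 𝔸) : ℝ :=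
  dN N x ζ a b - N x (br (A x ζ) a) b - N x a (br (A x ζ) b)

/-- second order term of the parallel transport, symmetrised. -/
noncomputable def s2 (A : B → B →L[ℝ] 𝔸) (x ζ ζ' : B) (a : 𝔸) : 𝔸 :=
  (1/2 : ℝ) • (br (A x ζ) (br (A x ζ') a) + br (A x ζ') (br (A x ζ) a))
    - (1/2 : ℝ) • br (fderiv ℝ A x ζ ζ' + fderiv ℝ A x ζ' ζ) a

/-- covariant (symmetrised) second derivative of `N`. -/
noncomputable def cN2 (h : B → B →L[ℝ] B →L[ℝ] ℝ) (N : B → 𝔸 →L[ℝ] 𝔸 →L[ℝ] ℝ) (A : B → B →L[ℝ] 𝔸)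
    (x ζ ζ' : B) (a b : 𝔸) : ℝ :=
  ddN N x ζ ζ' a b - dN N x ζ (br (A x ζ') a) b - dN N x ζ a (br (A x ζ') b)
    - dN N x ζ' (br (A x ζ) a) b - dN N x ζ' a (br (A x ζ) b)
    + N x (br (A x ζ) a) (br (A x ζ') b) + N x (br (A x ζ') a) (br (A x ζ) b)
    + N x (s2 A x ζ ζ' a) b + N x a (s2 A x ζ ζ' b)
    - cN1 N A x (Gam h x ζ ζ') a b

/-- `t` is the horizontal part of the difference tensor for `u = (ζ,η)`, `v = (ζ',η')`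
(`η`, `η'` are the values of `dq q⁻¹ + A`). -/
def IsKH (h : B → B →L[ℝ] B →L[ℝ] ℝ) (N : B → 𝔸 →L[ℝ] 𝔸 →L[ℝ] ℝ) (A : B → B →L[ℝ] 𝔸)
    (x ζ : B) (η : 𝔸) (ζ' : B) (η' : 𝔸) (t : B) : Prop :=
  ∀ ξ : B, h x t ξ = - (1/2) * cN1 N A x ξ η η' + (1/2) * N x η' (Om A x ζ ξ)
    + (1/2) * N x η (Om A x ζ' ξ)

/-- `t` is the vertical part of the difference tensor. -/
def IsKV (N : B → 𝔸 →L[ℝ] 𝔸 →L[ℝ] ℝ) (A : B → B →L[ℝ] 𝔸)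
    (x ζ : B) (η : 𝔸) (ζ' : B) (η' : 𝔸) (t : 𝔸) : Prop :=
  ∀ ξ : 𝔸, N x t ξ = (1/2) * cN1 N A x ζ η' ξ + (1/2) * cN1 N A x ζ' η ξ
    + (1/2) * N x η' (br η ξ) + (1/2) * N x η (br η' ξ)

/-- the right hand side of the Kaluza-Klein formula; `th`, `tv` are the horizontal and vertical
parts of the difference tensor for the pairs `(u,v)`, `(u,u)`, `(v,v)`. -/
noncomputable def kkRHS (h : B → B →L[ℝ] B →L[ℝ] ℝ) (N : B → 𝔸 →L[ℝ] 𝔸 →L[ℝ] ℝ) (A : B → B →L[ℝ] 𝔸)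
    (x ζ : B) (η : 𝔸) (ζ' : B) (η' : 𝔸) (th thu thv : B) (tv tvu tvv : 𝔸) : ℝ :=
  num h x ζ ζ'
    - (1/2) * (cN2 h N A x ζ ζ η' η' + cN2 h N A x ζ' ζ' η η - 2 * cN2 h N A x ζ ζ' η η')
    - (3/2) * cN1 N A x ζ (br η η' + Om A x ζ ζ') η' + (3/2) * cN1 N A x ζ' (br η η' + Om A x ζ ζ') η
    - (3/4) * N x (br η η' + Om A x ζ ζ') (br η η' + Om A x ζ ζ')
    - N x ((1/2 : ℝ) • br η (br η η') + DOm h A x ζ ζ ζ') η'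
    - N x ((1/2 : ℝ) • br η' (br η' η) + DOm h A x ζ' ζ' ζ) η
    + h x th th - h x thu thv + N x tv tv - N x tvu tvv

end

end Pool.Agent.Helper20.HP
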