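import Pool.Agent.Helper20.PC.Defs

/-!
# Sectional curvature of a Riemannian metric on a manifold
-/

open Filter Metric Module Set
open scoped Topology ContDiff RealInnerProductSpace Manifold

namespace Pool.Agent.Helper20.HP
open Pool.Agent.Helper20.PC

section
variable {E : Type*} [NormedAddCommGroup E] [NormedSpace ℝ E] {H : Type*} [TopologicalSpace H]
  {I : ModelWithCorners ℝ E H} {M : Type*} [TopologicalSpace M] [ChartedSpace H M]
  [IsManifold I ∞ M]

/-- The coordinate expression of the Riemannian metric `g` in the preferred chart at `p`. -/
noncomputable def coordMetric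
    (g : Bundle.ContMDiffRiemannianMetric I ∞ E (fun x : M => TangentSpace I x)) (p : M) (y : E) :
    E →L[ℝ] E →L[ℝ] ℝ :=
  (ContinuousLinearMap.precomp ℝ (mfderiv 𝓘(ℝ, E) I (extChartAt I p).symm y)).comp
    ((g.inner ((extChartAt I p).symm y)).comp (mfderiv 𝓘(ℝ, E) I (extChartAt I p).symm y))

/-- The sectional curvature of the Riemannian metric `g` for the plane spanned by `u`, `v` in the
tangent space at `p`. A check of this definition: for the metric induced on the unit sphere of a
Euclidean space it is `1` for every plane, see `Pool.Agent.Helper27.RS.sectionalCurvature_sphere`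
in `Pool/Agent/Helper27/RS/Sphere.lean`. -/
noncomputable def sectionalCurvature
    (g : Bundle.ContMDiffRiemannianMetric I ∞ E (fun x : M => TangentSpace I x)) (p : M)
    (u v : TangentSpace I p) : ℝ :=
  secCurv (coordMetric g p) (extChartAt I p p) u v

variable (I M) in
/-- The manifold `M` admits a smooth Riemannian metric of positive sectional curvature. -/
def AdmitsPositiveCurvature : Prop :=
  ∃ g : Bundle.ContMDiffRiemannianMetric I ∞ E (fun x : M => TangentSpace I x),
    ∀ (p : M) (u v : TangentSpace I p), LinearIndependent ℝ ![u, v] → 0 < sectionalCurvature g p u v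

end



end Pool.Agent.Helper20.HP
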