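import Pool.Agent.Helper20.HP.KKDefs

open Filter Metric Module Set
open scoped Topology ContDiff RealInnerProductSpace Manifold

namespace Pool.Agent.Helper20.HP
open Pool.Agent.Helper20.PC

-- P1a : naturality of the curvature numerator
theorem num_pullback {F F' : Type*} [NormedAddCommGroup F] [NormedSpace ℝ F] [FiniteDimensional ℝ F]
    [NormedAddCommGroup F'] [NormedSpace ℝ F'] [FiniteDimensional ℝ F']
    {G : F → F →L[ℝ] F →L[ℝ] ℝ} {G' : F' → F' →L[ℝ] F' →L[ℝ] ℝ} {φ : F → F'} {z : F}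
    (hφ : ContDiffAt ℝ 3 φ z) (hG' : MetAt G' (φ z)) (hG : MetAt G z)
    (hs : Function.Surjective (fderiv ℝ φ z))
    (h : ∀ᶠ w in 𝓝 z, ∀ a b, G w a b = G' (φ w) (fderiv ℝ φ w a) (fderiv ℝ φ w b)) (u v : F) :
    num G z u v = num G' (φ z) (fderiv ℝ φ z u) (fderiv ℝ φ z v) := by
  sorry

-- P1b : O'Neill's formula for a Riemannian submersion with one-dimensional fibres
theorem num_submersion {F F' : Type*} [NormedAddCommGroup F] [NormedSpace ℝ F] [FiniteDimensional ℝ F]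
    [NormedAddCommGroup F'] [NormedSpace ℝ F'] [FiniteDimensional ℝ F']
    {G : F → F →L[ℝ] F →L[ℝ] ℝ} {G' : F' → F' →L[ℝ] F' →L[ℝ] ℝ} {φ : F → F'} {z : F}
    {β : F → F →L[ℝ] ℝ}
    (hφ : ContDiffAt ℝ 3 φ z) (hβ : ContDiffAt ℝ 2 β z) (hG' : MetAt G' (φ z)) (hG : MetAt G z)
    (hs : ∀ (a' : F') (s : ℝ), ∃ a, fderiv ℝ φ z a = a' ∧ β z a = s)
    (h : ∀ᶠ w in 𝓝 z, ∀ a b, G w a b
      = G' (φ w) (fderiv ℝ φ w a) (fderiv ℝ φ w b) + β w a * β w b)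
    {u v : F} (hu : β z u = 0) (hv : β z v = 0) :
    num G z u v = num G' (φ z) (fderiv ℝ φ z u) (fderiv ℝ φ z v)
      - (3/4) * (fderiv ℝ β z u v - fderiv ℝ β z v u) ^ 2 := by
  sorry

-- P2 : Kaluza-Klein formula in normal form
theorem num_normal {B W : Type*} [NormedAddCommGroup B] [NormedSpace ℝ B] [FiniteDimensional ℝ B]
    [NormedAddCommGroup W] [NormedSpace ℝ W] [FiniteDimensional ℝ W]
    {h : B → B →L[ℝ] B →L[ℝ] ℝ} {N : B → W →L[ℝ] W →L[ℝ] ℝ} {Λ : B × W → B × W →L[ℝ] W}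
    {z : B × W} (hh : MetAt h z.1) (hN : FormAt N z.1) (hΛ : ContDiffAt ℝ 2 Λ z)
    (hΛ0 : ∀ u : B × W, Λ z u = u.2) (hΛ1 : ∀ u : B × W, fderiv ℝ Λ z u u = 0)
    (u v : B × W) {th thu thv : B} {tv tvu tvv : W}
    (h1 : IsH h N Λ z u v th) (h2 : IsH h N Λ z u u thu) (h3 : IsH h N Λ z v v thv)
    (h4 : IsV N Λ z u v tv) (h5 : IsV N Λ z u u tvu) (h6 : IsV N Λ z v v tvv) :
    num (normalMetric h N Λ) z u v = num h z.1 u.1 v.1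
      - (1/2) * (hessN h N z.1 u.1 u.1 v.2 v.2 + hessN h N z.1 v.1 v.1 u.2 u.2
          - 2 * hessN h N z.1 u.1 v.1 u.2 v.2)
      - (3/2) * dN N z.1 u.1 (cc Λ z u v) v.2 + (3/2) * dN N z.1 v.1 (cc Λ z u v) u.2
      - (3/4) * N z.1 (cc Λ z u v) (cc Λ z u v)
      - N z.1 (ee h Λ z u v) v.2 - N z.1 (ee h Λ z v u) u.2
      + h z.1 th th - h z.1 thu thv + N z.1 tv tv - N z.1 tvu tvv := by
  sorry

-- P3a : Kaluza-Klein formula at a point where the connection vanishes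
theorem kk_num_zero {B 𝔸 : Type*} [NormedAddCommGroup B] [NormedSpace ℝ B] [FiniteDimensional ℝ B]
    [NormedDivisionRing 𝔸] [NormedAlgebra ℝ 𝔸] [FiniteDimensional ℝ 𝔸]
    {h : B → B →L[ℝ] B →L[ℝ] ℝ} {N : B → 𝔸 →L[ℝ] 𝔸 →L[ℝ] ℝ} {A : B → B →L[ℝ] 𝔸} {x : B}
    (hh : MetAt h x) (hN : FormAt N x) (hA : ContDiffAt ℝ 2 A x)
    (hA0 : A x = 0) (hA1 : ∀ ζ, fderiv ℝ A x ζ ζ = 0)
    (ζ ζ' : B) (η η' : 𝔸) {th thu thv : B} {tv tvu tvv : 𝔸}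
    (h1 : IsKH h N A x ζ η ζ' η' th) (h2 : IsKH h N A x ζ η ζ η thu) (h3 : IsKH h N A x ζ' η' ζ' η' thv)
    (h4 : IsKV N A x ζ η ζ' η' tv) (h5 : IsKV N A x ζ η ζ η tvu) (h6 : IsKV N A x ζ' η' ζ' η' tvv) :
    num (KK h N A) (x, 1) (ζ, η) (ζ', η') = kkRHS h N A x ζ η ζ' η' th thu thv tv tvu tvv := by
  sorry

-- P3b : Kaluza-Klein formula
theorem kk_num {B 𝔸 : Type*} [NormedAddCommGroup B] [NormedSpace ℝ B] [FiniteDimensional ℝ B]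
    [NormedDivisionRing 𝔸] [NormedAlgebra ℝ 𝔸] [FiniteDimensional ℝ 𝔸]
    {h : B → B →L[ℝ] B →L[ℝ] ℝ} {N : B → 𝔸 →L[ℝ] 𝔸 →L[ℝ] ℝ} {A : B → B →L[ℝ] 𝔸} {x : B}
    (hh : MetAt h x) (hN : FormAt N x) (hA : ContDiffAt ℝ 2 A x)
    (ζ ζ' : B) (η η' : 𝔸) {th thu thv : B} {tv tvu tvv : 𝔸}
    (h1 : IsKH h N A x ζ η ζ' η' th) (h2 : IsKH h N A x ζ η ζ η thu) (h3 : IsKH h N A x ζ' η' ζ' η' thv)
    (h4 : IsKV N A x ζ η ζ' η' tv) (h5 : IsKV N A x ζ η ζ η tvu) (h6 : IsKV N A x ζ' η' ζ' η' tvv) :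
    num (KK h N A) (x, 1) (ζ, η - A x ζ) (ζ', η' - A x ζ')
      = kkRHS h N A x ζ η ζ' η' th thu thv tv tvu tvv := by
  sorry

-- P4 : change of basis in the plane
theorem num_comb {F : Type*} [NormedAddCommGroup F] [NormedSpace ℝ F] [FiniteDimensional ℝ F]
    {G : F → F →L[ℝ] F →L[ℝ] ℝ} {z : F} (hG : MetAt G z) (a b c d : ℝ) (u v : F) :
    num G z (a • u + b • v) (c • u + d • v) = (a * d - b * c) ^ 2 * num G z u v := by
  sorry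

end Pool.Agent.Helper20.HP
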