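import Pool.Agent.Helper20.HP.Data2

open Filter Metric Module Set
open scoped Topology ContDiff RealInnerProductSpace Manifold Quaternion

namespace Pool.Agent.Helper20.HP
open Pool.Agent.Helper20.PC

/-! ## Q-series: geometry of the explicit data -/

-- Q1a
theorem metAt_hE {κ : ℝ} (hκ : |κ| ≤ 1/10) {x : E3} (hx : x ≠ 0) : MetAt (hE κ) x := by
  sorry

-- Q1b
theorem gam_hE {κ : ℝ} (hκ : |κ| ≤ 1/10) {x u v : E3} (hx : ‖x‖ = 1) (hu : ⟪x, u⟫ = 0) (hv : ⟪x, v⟫ = 0) :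
    Gam (hE κ) x u v = (2 * κ / sg κ x) • (Hb x u • v + Hb x v • u)
      - (2 * κ / sg κ x * ⟪u, v⟫) • (Hv x - Hb x x • x) + (⟪u, v⟫ : ℝ) • x := by
  sorry

-- Q1c
theorem num_hE {κ : ℝ} (hκ : |κ| ≤ 1/10) {x u v : E3} (hx : ‖x‖ = 1) (hu : ⟪x, u⟫ = 0) (hv : ⟪x, v⟫ = 0) :
    num (hE κ) x u v = (sg κ x ^ 4)⁻¹ * Kc κ x * (‖u‖ ^ 2 * ‖v‖ ^ 2 - ⟪u, v⟫ ^ 2) := by
  sorry

-- Q2a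
theorem contDiffAt_AE {κ ε : ℝ} (hκ : |κ| ≤ 1/10) {x : E3} (hx : x ≠ 0) : ContDiffAt ℝ 2 (AE κ ε) x := by
  sorry

-- Q2b
theorem Om_AE {κ ε : ℝ} (hκ : |κ| ≤ 1/10) {x : E3} (hx : x ≠ 0) (u v : E3) :
    Om (AE κ ε) x u v = (1/2 * (sg κ (nn x) ^ 2)⁻¹ * ‖x‖⁻¹ ^ 3 * ⟪x, cr u v⟫) • qimL (om κ ε (nn x)) := by
  sorry

-- Q3 (uses Q1b, Q2b)
theorem DOm_AE {κ ε : ℝ} (hκ : |κ| ≤ 1/10) {x X : E3} (hx : ‖x‖ = 1) (hX : ‖X‖ = 1) (hxX : ⟪x, X⟫ = 0) :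
    DOm (hE κ) (AE κ ε) x (jx1 κ x X) (jx1 κ x X) (sg κ x • cr x X) = (1/2 : ℝ) • qimL (dom κ ε x X) := by
  sorry

-- Q4 (uses Q1b)
theorem AE_jets {κ ε : ℝ} (hκ : |κ| ≤ 1/10) {x X : E3} (hx : ‖x‖ = 1) (hX : ‖X‖ = 1) (hxX : ⟪x, X⟫ = 0) :
    Gam (hE κ) x (jx1 κ x X) (jx1 κ x X) = - jx2 κ x X ∧
    AE κ ε x (jx1 κ x X) = (1/2 : ℝ) • qimL (jw0 κ ε x X) ∧
    fderiv ℝ (AE κ ε) x (jx1 κ x X) (jx1 κ x X) + AE κ ε x (jx2 κ x X) = (1/2 : ℝ) • qimL (jw1 κ ε x X) := by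
  sorry

-- Q5a
theorem formAt_NE {κ ε T δ : ℝ} (hM : ∀ y : E3, ‖y‖ = 1 → ∀ a, a ≠ 0 → 0 < Mf κ ε T δ y a a)
    {x : E3} (hx : x ≠ 0) : FormAt (NE κ ε T δ) x := by
  sorry

-- Q5b (chain rule along curves, general)
theorem cN2_curve {B 𝔸 : Type*} [NormedAddCommGroup B] [NormedSpace ℝ B] [NormedDivisionRing 𝔸]
    [NormedAlgebra ℝ 𝔸] {h : B → B →L[ℝ] B →L[ℝ] ℝ} {N : B → 𝔸 →L[ℝ] 𝔸 →L[ℝ] ℝ} {A : B → B →L[ℝ] 𝔸} {x : B}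
    (hN : ContDiffAt ℝ 2 N x) (ζ : B) (a b : 𝔸) {X : ℝ → B} {P Q : ℝ → 𝔸} {X' : ℝ → B} {P' Q' : ℝ → 𝔸}
    (hX0 : X 0 = x) (hX1 : ∀ᶠ t in 𝓝 (0 : ℝ), HasDerivAt X (X' t) t) (hX2 : X' 0 = ζ)
    (hX3 : HasDerivAt X' (- Gam h x ζ ζ) 0)
    (hP0 : P 0 = a) (hP1 : ∀ᶠ t in 𝓝 (0 : ℝ), HasDerivAt P (P' t) t) (hP2 : P' 0 = - br (A x ζ) a)
    (hP3 : HasDerivAt P' (br (A x ζ) (br (A x ζ) a) - br (fderiv ℝ A x ζ ζ - A x (Gam h x ζ ζ)) a) 0)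
    (hQ0 : Q 0 = b) (hQ1 : ∀ᶠ t in 𝓝 (0 : ℝ), HasDerivAt Q (Q' t) t) (hQ2 : Q' 0 = - br (A x ζ) b)
    (hQ3 : HasDerivAt Q' (br (A x ζ) (br (A x ζ) b) - br (fderiv ℝ A x ζ ζ - A x (Gam h x ζ ζ)) b) 0) :
    HasJet (fun t => N (X t) (P t) (Q t)) ⟨N x a b, cN1 N A x ζ a b, cN2 h N A x ζ ζ a b⟩ := by
  sorry

-- Q5c (uses Q4, Q5a, Q5b)
theorem cN_NE {κ ε T δ : ℝ} (hκ : |κ| ≤ 1/10) {x X : E3} (hx : ‖x‖ = 1) (hX : ‖X‖ = 1) (hxX : ⟪x, X⟫ = 0)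
    (a b : E3) :
    cN1 (NE κ ε T δ) (AE κ ε) x (jx1 κ x X) (qimL a) (qimL b) = -4 * δ ^ 4 * S1 κ ε T x X a b ∧
    cN2 (hE κ) (NE κ ε T δ) (AE κ ε) x (jx1 κ x X) (jx1 κ x X) (qimL a) (qimL b)
      = -4 * δ ^ 4 * S2 κ ε T x X a b := by
  sorry

-- Q5d : radial direction and real part
theorem cN_NE' {κ ε T δ : ℝ} (hκ : |κ| ≤ 1/10) {x : E3} (hx : ‖x‖ = 1) (ζ : E3) (a : E3) (p q : ℍ[ℝ]) :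
    cN1 (NE κ ε T δ) (AE κ ε) x x p q = 0 ∧ cN1 (NE κ ε T δ) (AE κ ε) x ζ (qimL a) 1 = 0 ∧
    AE κ ε x x = 0 := by
  sorry

-- Q6a : the exact curvature formula (uses kk_num and Q1-Q5)
theorem num3_formula {κ ε T δ : ℝ} (hκ : |κ| ≤ 1/10) (hδ : 0 < δ)
    (hM : ∀ y : E3, ‖y‖ = 1 → ∀ a, a ≠ 0 → 0 < Mf κ ε T δ y a a)
    {x X : E3} (hx : ‖x‖ = 1) (hX : ‖X‖ = 1) (hxX : ⟪x, X⟫ = 0) (U V : E3) (ca sa cb sb : ℝ) :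
    ∃ t tu tv : E3,
      (∀ e, Mh κ ε T δ x t e = - (1/2) * (δ ^ 2 * (ca * sb * S1 κ ε T x X V e + sa * cb * S1 κ ε T x (cr x X) U e)
        + δ * (sa * sb) * (Sb κ ε T x V (cr U e) + Sb κ ε T x U (cr V e)))) ∧
      (∀ e, Mh κ ε T δ x tu e = - (δ ^ 2 * (ca * sa) * S1 κ ε T x X U e + δ * sa ^ 2 * Sb κ ε T x U (cr U e))) ∧
      (∀ e, Mh κ ε T δ x tv e = - (δ ^ 2 * (cb * sb) * S1 κ ε T x (cr x X) V e + δ * sb ^ 2 * Sb κ ε T x V (cr V e))) ∧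
      num (KK (hE κ) (NE κ ε T δ) (AE κ ε)) (x, 1) (pv κ ε δ x X ca sa U) (pv κ ε δ x (cr x X) cb sb V)
        = F3 κ ε T δ x X U V ca sa cb sb + Mh κ ε T δ x t t - Mh κ ε T δ x tu tv := by
  sorry

-- Q6b : the estimate; purely real-variable + inner product estimates
theorem num3_lower {κ ε T δ B : ℝ} (hδ : 0 < δ) (hδB : δ ^ 2 * B ≤ 1/100) (hδ1 : δ ≤ 1)
    {x X U V : E3} (hx : ‖x‖ = 1) (hX : ‖X‖ = 1) (hxX : ⟪x, X⟫ = 0)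
    (h1 : Bd κ ε T B x X) (h2 : Bd κ ε T B x (cr x X)) (h3 : Bd κ ε T B x ((√2)⁻¹ • (X + cr x X)))
    (hUU : Mh κ ε T δ x U U = 1) (hVV : Mh κ ε T δ x V V = 1) (hUV : Mh κ ε T δ x U V = 0)
    {ca sa cb sb : ℝ} (ha : ca ^ 2 + sa ^ 2 = 1) (hb : cb ^ 2 + sb ^ 2 = 1) {t tu tv : E3}
    (ht : 0 ≤ Mh κ ε T δ x t t)
    (htu : ∀ e, Mh κ ε T δ x tu e = - (δ ^ 2 * (ca * sa) * S1 κ ε T x X U e + δ * sa ^ 2 * Sb κ ε T x U (cr U e)))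
    (htv : ∀ e, Mh κ ε T δ x tv e
      = - (δ ^ 2 * (cb * sb) * S1 κ ε T x (cr x X) V e + δ * sb ^ 2 * Sb κ ε T x V (cr V e))) :
    Mt κ ε T δ x X U V (ca * cb) (sa * sb) (ca * sb) (sa * cb)
        - 1000 * B ^ 3 * Er δ (ca * cb) (sa * sb) (ca * sb) (sa * cb)
      ≤ F3 κ ε T δ x X U V ca sa cb sb + Mh κ ε T δ x t t - Mh κ ε T δ x tu tv := by
  sorry

-- D1 : real inequality for small δ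
theorem small_delta {B c : ℝ} (hB : 1 ≤ B) (hc : 0 < c) :
    ∃ δ₀ > 0, ∀ δ, 0 < δ → δ ≤ δ₀ → ∀ K l1 l2 q1 q2 xx z m1 m2 : ℝ,
      |K| ≤ B → |l1| ≤ B → |l2| ≤ B → |q1| ≤ B → |q2| ≤ B → 1/2 ≤ K →
      c ≤ 4 * K * q1 - l1 ^ 2 → c ≤ 4 * K * q2 - l2 ^ 2 →
      xx * z = m1 * m2 → xx ^ 2 + z ^ 2 + m1 ^ 2 + m2 ^ 2 = 1 →
      0 < K * xx ^ 2 + (1/4) * (δ ^ 2)⁻¹ * z ^ 2 + δ * xx * (m1 * l1 + m2 * l2)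
        + δ ^ 2 * (m1 ^ 2 * q1 + m2 ^ 2 * q2) - B * Er δ xx z m1 m2 := by
  sorry

-- B1 : uniform bounds by compactness
theorem exists_bd (κ ε T : ℝ) (hκ : |κ| ≤ 1/10) :
    ∃ B : ℝ, ∀ x X : E3, ‖x‖ = 1 → ‖X‖ = 1 → ⟪x, X⟫ = 0 → Bd κ ε T B x X := by
  sorry

-- PA : principal basis of a plane. `Gx` is the metric at `(x,1)`.
theorem principal {κ ε T δ : ℝ} (hκ : |κ| ≤ 1/10) (hδ : 0 < δ) {x : E3} (hx : ‖x‖ = 1)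
    (hM : ∀ y : E3, ‖y‖ = 1 → ∀ a, a ≠ 0 → 0 < Mf κ ε T δ y a a)
    {u v : E3 × ℍ[ℝ]} (hu : ⟪x, u.1⟫ = 0) (hu' : u.2.re = 0) (hv : ⟪x, v.1⟫ = 0) (hv' : v.2.re = 0)
    (huv : LinearIndependent ℝ ![u, v]) :
    ∃ (X U V : E3) (ca sa cb sb a b c d : ℝ), ‖X‖ = 1 ∧ ⟪x, X⟫ = 0 ∧ ca ^ 2 + sa ^ 2 = 1 ∧ cb ^ 2 + sb ^ 2 = 1 ∧
      Mh κ ε T δ x U U = 1 ∧ Mh κ ε T δ x V V = 1 ∧ Mh κ ε T δ x U V = 0 ∧ a * d - b * c ≠ 0 ∧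
      u = a • pv κ ε δ x X ca sa U + b • pv κ ε δ x (cr x X) cb sb V ∧
      v = c • pv κ ε δ x X ca sa U + d • pv κ ε δ x (cr x X) cb sb V := by
  sorry

/-! ## T-series: the limit inequality -/

-- T1 : algebra of jets
theorem Pf_eq_Pe {κ ε T : ℝ} (hε : ε ≠ 0) {x X : E3} (hx : ‖x‖ = 1) (hX : ‖X‖ = 1) (hxX : ⟪x, X⟫ = 0)
    (c z y : ℝ) :
    Pf κ ε T x X (c • x + z • X + (y / ε) • cr x X) = Pe κ ε T x X c z y := by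
  sorry

-- T2 : the key identity
theorem key_identity :
    ∃ Wf : ℝ × E3 × E3 → ℝ, Continuous Wf ∧
      (∀ κ : ℝ, ∀ x X : E3, ‖x‖ = 1 → ‖X‖ = 1 → ⟪x, X⟫ = 0 →
        (QG κ (Jx κ x X) (Jn κ x X)).c = κ ^ 2 * Wf (κ, x, X)) ∧
      (∀ x X : E3, ‖x‖ = 1 → ‖X‖ = 1 → ⟪x, X⟫ = 0 → cr x X 2 = 0 → 7/8 ≤ Wf (0, x, X)) := by
  sorry

-- T3 : positivity at `ε = 0` for `T` large and `κ` small (uses T2)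
theorem tstage_kappa :
    ∃ κ T : ℝ, 0 < κ ∧ κ ≤ 1/10 ∧ 0 < T ∧ (∀ x : E3, ‖x‖ = 1 → 1/2 ≤ Kc κ x) ∧
      ∀ x X : E3, ‖x‖ = 1 → ‖X‖ = 1 → ⟪x, X⟫ = 0 → ∀ c z y : ℝ, c ^ 2 + z ^ 2 + y ^ 2 ≠ 0 →
        0 < Pe κ 0 T x X c z y := by
  sorry

-- T4 : `ε` small (uses T1, T3)
theorem tstage :
    ∃ κ ε T c : ℝ, 0 < κ ∧ κ ≤ 1/10 ∧ 0 < ε ∧ 0 < T ∧ 0 < c ∧ (∀ x : E3, ‖x‖ = 1 → 1/2 ≤ Kc κ x) ∧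
      ∀ x X b : E3, ‖x‖ = 1 → ‖X‖ = 1 → ⟪x, X⟫ = 0 → c * ‖b‖ ^ 2 ≤ Pf κ ε T x X b := by
  sorry

/-! ## main theorem on the local model -/

-- M1 (uses num3_formula, num3_lower, small_delta, exists_bd, principal, num_comb, tstage)
theorem main3 :
    ∃ κ ε T δ : ℝ, 0 < κ ∧ κ ≤ 1/10 ∧ 0 < δ ∧
      (∀ y : E3, ‖y‖ = 1 → ∀ a, a ≠ 0 → 0 < Mf κ ε T δ y a a) ∧
      ∀ x : E3, ‖x‖ = 1 → ∀ u v : E3 × ℍ[ℝ], ⟪x, u.1⟫ = 0 → u.2.re = 0 → ⟪x, v.1⟫ = 0 → v.2.re = 0 →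
        LinearIndependent ℝ ![u, v] → 0 < num (KK (hE κ) (NE κ ε T δ) (AE κ ε)) (x, 1) u v := by
  sorry

/-! ## F-series: packaging -/

-- F1 : MetAt of the total metric
theorem metAt_KK {κ ε T δ : ℝ} (hκ : |κ| ≤ 1/10) (hM : ∀ y : E3, ‖y‖ = 1 → ∀ a, a ≠ 0 → 0 < Mf κ ε T δ y a a)
    {z : E3 × ℍ[ℝ]} (hz1 : z.1 ≠ 0) (hz2 : z.2 ≠ 0) :
    MetAt (KK (hE κ) (NE κ ε T δ) (AE κ ε)) z := by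
  sorry

-- F2 : the cylindrical extension of `g3`
theorem ext_g3 {κ ε T δ : ℝ} (p : sphere (0 : E3) 1 × sphere (0 : ℍ[ℝ]) 1) {z : E3 × ℍ[ℝ]}
    (hz1 : z.1 ≠ 0) (hz2 : z.2 ≠ 0) (u v : E3 × ℍ[ℝ]) :
    extM p (g3 κ ε T δ) z u v = KK (hE κ) (NE κ ε T δ) (AE κ ε) z u v := by
  sorry

-- F3 : right translations
theorem num_right {κ ε T δ : ℝ} (hκ : |κ| ≤ 1/10) (hM : ∀ y : E3, ‖y‖ = 1 → ∀ a, a ≠ 0 → 0 < Mf κ ε T δ y a a)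
    {x : E3} (hx : x ≠ 0) {q : ℍ[ℝ]} (hq : q ≠ 0) (u v : E3 × ℍ[ℝ]) :
    num (KK (hE κ) (NE κ ε T δ) (AE κ ε)) (x, q) u v
      = num (KK (hE κ) (NE κ ε T δ) (AE κ ε)) (x, 1) (u.1, u.2 * q⁻¹) (v.1, v.2 * q⁻¹) := by
  sorry

-- F4 : the submersion
theorem submersion {κ ε T δ : ℝ} (hκ : |κ| ≤ 1/10) (hM : ∀ y : E3, ‖y‖ = 1 → ∀ a, a ≠ 0 → 0 < Mf κ ε T δ y a a)
    (p : sphere (0 : E3) 1 × sphere (0 : E3) 1) {z : E3 × ℍ[ℝ]} (hz1 : z.1 ≠ 0) (hz2 : z.2 ≠ 0) :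
    ContDiffAt ℝ 3 prj z ∧ ContDiffAt ℝ 2 (bet κ ε T δ) z ∧ (prj z).1 ≠ 0 ∧ (prj z).2 ≠ 0 ∧
    (∀ (a' : E3 × E3) (s : ℝ), ∃ a, fderiv ℝ prj z a = a' ∧ bet κ ε T δ z a = s) ∧
    (∀ a b, KK (hE κ) (NE κ ε T δ) (AE κ ε) z a b
      = extM p (g2 κ ε T δ) (prj z) (fderiv ℝ prj z a) (fderiv ℝ prj z b)
        + bet κ ε T δ z a * bet κ ε T δ z b) := by
  sorry

-- F5 : MetAt of the extension of g2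
theorem metAt_ext_g2 {κ ε T δ : ℝ} (hκ : |κ| ≤ 1/10) (hM : ∀ y : E3, ‖y‖ = 1 → ∀ a, a ≠ 0 → 0 < Mf κ ε T δ y a a)
    (p : sphere (0 : E3) 1 × sphere (0 : E3) 1) {z : E3 × E3} (hz1 : z.1 ≠ 0) (hz2 : z.2 ≠ 0) :
    MetAt (extM p (g2 κ ε T δ)) z := by
  sorry

-- F6 : smoothness, symmetry and positivity of g3
theorem g3_metric {κ ε T δ : ℝ} (hκ : |κ| ≤ 1/10) (hM : ∀ y : E3, ‖y‖ = 1 → ∀ a, a ≠ 0 → 0 < Mf κ ε T δ y a a) :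
    ContMDiff ((𝓡 2).prod (𝓡 3)) 𝓘(ℝ, (E3 × ℍ[ℝ]) →L[ℝ] (E3 × ℍ[ℝ]) →L[ℝ] ℝ) ∞ (g3 κ ε T δ) ∧
    (∀ p u v, g3 κ ε T δ p u v = g3 κ ε T δ p v u) ∧
    (∀ (p : sphere (0 : E3) 1 × sphere (0 : ℍ[ℝ]) 1) (u : E3 × ℍ[ℝ]), ⟪(p.1 : E3), u.1⟫ = 0 →
      ⟪(p.2 : ℍ[ℝ]), u.2⟫ = 0 → u ≠ 0 → 0 < g3 κ ε T δ p u u) := by
  sorry

-- F7 : smoothness, symmetry and positivity of g2
theorem g2_metric {κ ε T δ : ℝ} (hκ : |κ| ≤ 1/10) (hM : ∀ y : E3, ‖y‖ = 1 → ∀ a, a ≠ 0 → 0 < Mf κ ε T δ y a a) :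
    ContMDiff ((𝓡 2).prod (𝓡 2)) 𝓘(ℝ, (E3 × E3) →L[ℝ] (E3 × E3) →L[ℝ] ℝ) ∞ (g2 κ ε T δ) ∧
    (∀ p u v, g2 κ ε T δ p u v = g2 κ ε T δ p v u) ∧
    (∀ (p : sphere (0 : E3) 1 × sphere (0 : E3) 1) (u : E3 × E3), ⟪(p.1 : E3), u.1⟫ = 0 →
      ⟪(p.2 : E3), u.2⟫ = 0 → u ≠ 0 → 0 < g2 κ ε T δ p u u) := by
  sorry

-- F8 : final theorem for S² × S³ (uses main3, F1, F2, F3, F6)
theorem final3 :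
    ∃ g : sphere (0 : E3) 1 × sphere (0 : ℍ[ℝ]) 1 → (E3 × ℍ[ℝ]) →L[ℝ] (E3 × ℍ[ℝ]) →L[ℝ] ℝ,
      ContMDiff ((𝓡 2).prod (𝓡 3)) 𝓘(ℝ, (E3 × ℍ[ℝ]) →L[ℝ] (E3 × ℍ[ℝ]) →L[ℝ] ℝ) ∞ g ∧
      (∀ p u v, g p u v = g p v u) ∧
      (∀ (p : sphere (0 : E3) 1 × sphere (0 : ℍ[ℝ]) 1) (u : E3 × ℍ[ℝ]), ⟪(p.1 : E3), u.1⟫ = 0 →
        ⟪(p.2 : ℍ[ℝ]), u.2⟫ = 0 → u ≠ 0 → 0 < g p u u) ∧
      ∀ (p : sphere (0 : E3) 1 × sphere (0 : ℍ[ℝ]) 1) (u v : E3 × ℍ[ℝ]),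
        ⟪(p.1 : E3), u.1⟫ = 0 → ⟪(p.2 : ℍ[ℝ]), u.2⟫ = 0 → ⟪(p.1 : E3), v.1⟫ = 0 → ⟪(p.2 : ℍ[ℝ]), v.2⟫ = 0 →
        LinearIndependent ℝ ![u, v] → 0 < sectional g p u v := by
  sorry

-- F9 : final theorem for S² × S² (uses main3, num_submersion, F1, F3, F4, F5, F7)
theorem final2 :
    ∃ g : sphere (0 : E3) 1 × sphere (0 : E3) 1 → (E3 × E3) →L[ℝ] (E3 × E3) →L[ℝ] ℝ,
      ContMDiff ((𝓡 2).prod (𝓡 2)) 𝓘(ℝ, (E3 × E3) →L[ℝ] (E3 × E3) →L[ℝ] ℝ) ∞ g ∧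
      (∀ p u v, g p u v = g p v u) ∧
      (∀ (p : sphere (0 : E3) 1 × sphere (0 : E3) 1) (u : E3 × E3), ⟪(p.1 : E3), u.1⟫ = 0 →
        ⟪(p.2 : E3), u.2⟫ = 0 → u ≠ 0 → 0 < g p u u) ∧
      ∀ (p : sphere (0 : E3) 1 × sphere (0 : E3) 1) (u v : E3 × E3),
        ⟪(p.1 : E3), u.1⟫ = 0 → ⟪(p.2 : E3), u.2⟫ = 0 → ⟪(p.1 : E3), v.1⟫ = 0 → ⟪(p.2 : E3), v.2⟫ = 0 →
        LinearIndependent ℝ ![u, v] → 0 < sectional g p u v := by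
  sorry

end Pool.Agent.Helper20.HP
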