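import Pool.Agent.Helper20.HP.Man
import Pool.Agent.Helper20.HP.Dinc
import Pool.Agent.Helper20.PC.Curv
import Pool.Agent.Helper20.PC.Prod

open Filter Metric Module Set
open scoped Topology ContDiff RealInnerProductSpace Manifold

set_option maxSynthPendingDepth 3

namespace Pool.Agent.Helper20.HP
open Pool.Agent.Helper20.PC

section
variable {E₁ E₂ : Type} [NormedAddCommGroup E₁] [InnerProductSpace ℝ E₁] [FiniteDimensional ℝ E₁]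
  [NormedAddCommGroup E₂] [InnerProductSpace ℝ E₂] [FiniteDimensional ℝ E₂]
  {k l : ℕ} [Fact (finrank ℝ E₁ = k + 1)] [Fact (finrank ℝ E₂ = l + 1)]

-- BR0 : `dinc p` is injective with tangential image
theorem dinc_prop (p : sphere (0 : E₁) 1 × sphere (0 : E₂) 1) :
    Function.Injective (dinc (k := k) (l := l) p) ∧
    ∀ u, ⟪(p.1 : E₁), (dinc (k := k) (l := l) p u).1⟫ = 0 ∧ ⟪(p.2 : E₂), (dinc (k := k) (l := l) p u).2⟫ = 0 := by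
  sorry

-- BR1 : the Riemannian metric induced by a field of bilinear forms of the ambient space
theorem exists_metric
    (g : sphere (0 : E₁) 1 × sphere (0 : E₂) 1 → (E₁ × E₂) →L[ℝ] (E₁ × E₂) →L[ℝ] ℝ)
    (h1 : ContMDiff ((𝓡 k).prod (𝓡 l)) 𝓘(ℝ, (E₁ × E₂) →L[ℝ] (E₁ × E₂) →L[ℝ] ℝ) ∞ g)
    (h2 : ∀ p u v, g p u v = g p v u)
    (h3 : ∀ (p : sphere (0 : E₁) 1 × sphere (0 : E₂) 1) (u : E₁ × E₂), ⟪(p.1 : E₁), u.1⟫ = 0 →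
      ⟪(p.2 : E₂), u.2⟫ = 0 → u ≠ 0 → 0 < g p u u) :
    ∃ g' : Bundle.ContMDiffRiemannianMetric ((𝓡 k).prod (𝓡 l)) ∞
        (EuclideanSpace ℝ (Fin k) × EuclideanSpace ℝ (Fin l))
        (fun x : sphere (0 : E₁) 1 × sphere (0 : E₂) 1 => TangentSpace ((𝓡 k).prod (𝓡 l)) x),
      ∀ p u v, g'.inner p u v = g p (dinc p u) (dinc p v) := by
  sorry

-- BR2 : the sectional curvature of the induced metric (uses num_pullback, num_submersion = P1)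
theorem sectionalCurvature_eq
    (g : sphere (0 : E₁) 1 × sphere (0 : E₂) 1 → (E₁ × E₂) →L[ℝ] (E₁ × E₂) →L[ℝ] ℝ)
    (h1 : ContMDiff ((𝓡 k).prod (𝓡 l)) 𝓘(ℝ, (E₁ × E₂) →L[ℝ] (E₁ × E₂) →L[ℝ] ℝ) ∞ g)
    (h2 : ∀ p u v, g p u v = g p v u)
    (h3 : ∀ (p : sphere (0 : E₁) 1 × sphere (0 : E₂) 1) (u : E₁ × E₂), ⟪(p.1 : E₁), u.1⟫ = 0 →
      ⟪(p.2 : E₂), u.2⟫ = 0 → u ≠ 0 → 0 < g p u u)
    (g' : Bundle.ContMDiffRiemannianMetric ((𝓡 k).prod (𝓡 l)) ∞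
        (EuclideanSpace ℝ (Fin k) × EuclideanSpace ℝ (Fin l))
        (fun x : sphere (0 : E₁) 1 × sphere (0 : E₂) 1 => TangentSpace ((𝓡 k).prod (𝓡 l)) x))
    (hg' : ∀ p u v, g'.inner p u v = g p (dinc p u) (dinc p v))
    (p : sphere (0 : E₁) 1 × sphere (0 : E₂) 1) (u v : TangentSpace ((𝓡 k).prod (𝓡 l)) p) :
    sectionalCurvature g' p u v = sectional g p (dinc p u) (dinc p v) := by
  sorry

-- BR3 : assembly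
theorem admits_of_sectional
    (g : sphere (0 : E₁) 1 × sphere (0 : E₂) 1 → (E₁ × E₂) →L[ℝ] (E₁ × E₂) →L[ℝ] ℝ)
    (h1 : ContMDiff ((𝓡 k).prod (𝓡 l)) 𝓘(ℝ, (E₁ × E₂) →L[ℝ] (E₁ × E₂) →L[ℝ] ℝ) ∞ g)
    (h2 : ∀ p u v, g p u v = g p v u)
    (h3 : ∀ (p : sphere (0 : E₁) 1 × sphere (0 : E₂) 1) (u : E₁ × E₂), ⟪(p.1 : E₁), u.1⟫ = 0 →
      ⟪(p.2 : E₂), u.2⟫ = 0 → u ≠ 0 → 0 < g p u u)
    (h4 : ∀ (p : sphere (0 : E₁) 1 × sphere (0 : E₂) 1) (u v : E₁ × E₂),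
      ⟪(p.1 : E₁), u.1⟫ = 0 → ⟪(p.2 : E₂), u.2⟫ = 0 → ⟪(p.1 : E₁), v.1⟫ = 0 → ⟪(p.2 : E₂), v.2⟫ = 0 →
      LinearIndependent ℝ ![u, v] → 0 < sectional g p u v) :
    AdmitsPositiveCurvature ((𝓡 k).prod (𝓡 l)) (sphere (0 : E₁) 1 × sphere (0 : E₂) 1) := by
  obtain ⟨g', hg'⟩ := exists_metric (k := k) (l := l) g h1 h2 h3
  refine ⟨g', fun p u v huv => ?_⟩
  rw [sectionalCurvature_eq g h1 h2 h3 g' hg' p u v]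
  obtain ⟨hinj, htan⟩ := dinc_prop (k := k) (l := l) p
  refine h4 p _ _ (htan u).1 (htan u).2 (htan v).1 (htan v).2 ?_
  rw [LinearIndependent.pair_iff] at huv ⊢
  intro s t hst
  apply huv s t
  apply hinj
  rw [map_add, map_smul, map_smul, map_zero]
  exact hst

-- BR4 : change of the second Euclidean space by a linear isometry (uses num_pullback)
theorem transfer {E₂' : Type} [NormedAddCommGroup E₂'] [InnerProductSpace ℝ E₂'] [FiniteDimensional ℝ E₂']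
    [Fact (finrank ℝ E₂' = l + 1)] (L : E₂' ≃ₗᵢ[ℝ] E₂)
    (h : ∃ g : sphere (0 : E₁) 1 × sphere (0 : E₂) 1 → (E₁ × E₂) →L[ℝ] (E₁ × E₂) →L[ℝ] ℝ,
      ContMDiff ((𝓡 k).prod (𝓡 l)) 𝓘(ℝ, (E₁ × E₂) →L[ℝ] (E₁ × E₂) →L[ℝ] ℝ) ∞ g ∧
      (∀ p u v, g p u v = g p v u) ∧
      (∀ (p : sphere (0 : E₁) 1 × sphere (0 : E₂) 1) (u : E₁ × E₂), ⟪(p.1 : E₁), u.1⟫ = 0 →
        ⟪(p.2 : E₂), u.2⟫ = 0 → u ≠ 0 → 0 < g p u u) ∧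
      ∀ (p : sphere (0 : E₁) 1 × sphere (0 : E₂) 1) (u v : E₁ × E₂),
        ⟪(p.1 : E₁), u.1⟫ = 0 → ⟪(p.2 : E₂), u.2⟫ = 0 → ⟪(p.1 : E₁), v.1⟫ = 0 → ⟪(p.2 : E₂), v.2⟫ = 0 →
        LinearIndependent ℝ ![u, v] → 0 < sectional g p u v) :
    ∃ g : sphere (0 : E₁) 1 × sphere (0 : E₂') 1 → (E₁ × E₂') →L[ℝ] (E₁ × E₂') →L[ℝ] ℝ,
      ContMDiff ((𝓡 k).prod (𝓡 l)) 𝓘(ℝ, (E₁ × E₂') →L[ℝ] (E₁ × E₂') →L[ℝ] ℝ) ∞ g ∧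
      (∀ p u v, g p u v = g p v u) ∧
      (∀ (p : sphere (0 : E₁) 1 × sphere (0 : E₂') 1) (u : E₁ × E₂'), ⟪(p.1 : E₁), u.1⟫ = 0 →
        ⟪(p.2 : E₂'), u.2⟫ = 0 → u ≠ 0 → 0 < g p u u) ∧
      ∀ (p : sphere (0 : E₁) 1 × sphere (0 : E₂') 1) (u v : E₁ × E₂'),
        ⟪(p.1 : E₁), u.1⟫ = 0 → ⟪(p.2 : E₂'), u.2⟫ = 0 → ⟪(p.1 : E₁), v.1⟫ = 0 → ⟪(p.2 : E₂'), v.2⟫ = 0 →
        LinearIndependent ℝ ![u, v] → 0 < sectional g p u v := by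
  sorry

end

end Pool.Agent.Helper20.HP
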